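import Pool.Agent.K3h16.FG.Stm

/-!
# Semigroup membership for minimal closed sets
-/

set_option autoImplicit false

namespace Pool.Agent.K3h40.FG

open Pool.Agent.R920.WC Pool.Agent.K3h16.FG

theorem t_MEM : S_MIN → S_AXIS → S_CLO → S_MEM := by
  intro hMIN hAXIS hCLO ι _ a q C ha hcop hC hq e he
  have hpos : ∀ i ∈ C, 0 < a i := fun i hi => by have := ha i hi; omega
  have hoth : ∀ i ∈ C, ∃ k ∈ C, k ≠ i := by
    intro i hi
    obtain ⟨m, -, k, hk, hki, -⟩ := hC.1.2 i hi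
    exact ⟨k, hk, hki⟩
  obtain ⟨c, hc⟩ := (hMIN a C hpos).1 hoth
  obtain ⟨hCc, hc2, hcq⟩ := hCLO a q c C ha hcop hC hc
  have hrel := hCc.1.2
  choose! M hM using hrel
  have key : ∀ i ∈ C, ∀ b : ℕ, b ≤ e → (b ≤ (q i - 1) * (a i - 1) + 1) →
      ∃ m : ι → ℕ, dg a C m + b = e := by
    intro i hi b hbe hb
    obtain ⟨i₁, hi₁, hne⟩ := hoth i hi
    have hax := hAXIS a c C ha hcop hc i hi
    have e1 : ∑ x ∈ C.erase i, (c x - 1) * a x
        = ∑ x ∈ C.erase i, (c x - 1) * (a x - 1) + ∑ x ∈ C.erase i, (c x - 1) := by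
      rw [← Finset.sum_add_distrib]
      refine Finset.sum_congr rfl fun x hx => ?_
      have h2 : 1 < a x := ha x (Finset.mem_of_mem_erase hx)
      obtain ⟨t, ht⟩ : ∃ t, a x = t + 1 := ⟨a x - 1, by omega⟩
      rw [ht, Nat.add_sub_cancel]
      ring
    have e2 : (q i - 1) * (a i - 1) + ∑ x ∈ C.erase i, (q x - 1) * (a x - 1)
        = ∑ x ∈ C, (q x - 1) * (a x - 1) :=
      Finset.add_sum_erase C (fun x => (q x - 1) * (a x - 1)) hi
    have e3 : ∑ x ∈ C.erase i, (c x - 1) * (a x - 1)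
        ≤ ∑ x ∈ C.erase i, (q x - 1) * (a x - 1) := Finset.sum_le_sum fun x hx =>
      Nat.mul_le_mul_right _ (Nat.sub_le_sub_right (hcq x (Finset.mem_of_mem_erase hx)) 1)
    have h3 := hpos i hi
    obtain ⟨m, hm⟩ := Pool.Agent.R920.WC.mem_of_large (e := e - b) (ℓ := c) (M := M) hpos
      (fun x hx => (hM x hx).1) (hCc.not_closed hM) hi hi₁ (hcop i₁ hi₁ i hi hne)
      (by rw [e1]; omega)
    exact ⟨m, by unfold dg; omega⟩
  have hle : ∀ i ∈ C, (q i - 1) * (a i - 1) + 1 ≤ e := by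
    intro i hi
    have e2 : (q i - 1) * (a i - 1) ≤ ∑ x ∈ C, (q x - 1) * (a x - 1) :=
      Finset.single_le_sum (f := fun x => (q x - 1) * (a x - 1)) (fun _ _ => Nat.zero_le _) hi
    omega
  refine ⟨fun i hi => ?_, fun b hb => ?_, fun i hi b hb1 hb2 => ?_⟩
  · have h1 := hle i hi
    have h2 : 1 * (a i - 1) ≤ (q i - 1) * (a i - 1) :=
      Nat.mul_le_mul_right _ (by have := hc2 i hi; have := hcq i hi; omega)
    have h3 := hpos i hi
    exact key i hi (a i) (by omega) (by omega)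
  · obtain ⟨m, hm⟩ := hC.mem_of_large ha hcop hq (e := e - b) (by omega)
    have : b ≤ e := le_trans (Nat.le_add_left _ _) hb
    exact ⟨m, by unfold dg; omega⟩
  · have h1 := hle i hi
    have h2 : (q i - 1) * 1 ≤ (q i - 1) * (a i - 1) :=
      Nat.mul_le_mul_left _ (by have := ha i hi; omega)
    exact key i hi b (by omega) (by omega)

end Pool.Agent.K3h40.FG
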