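import Pool.Agent.K3h16.FG.Stm

/-!
# Linear reduction
-/

set_option autoImplicit false

namespace Pool.Agent.K3h40.FG

open Pool.Agent.R920.WC Pool.Agent.K3h16.FG

theorem t_REDLIN : S_REDLIN := by
  intro ι _ A _ _ z a ℓ W I Z ha hW hz m₀
  set s := dg a I m₀ with hs
  -- strong induction on the distance to the bound of the potential
  have key : ∀ (n : ℕ) (m : ι → ℕ), dg a I m = s → s * ∑ k ∈ I, W k - dg W I m = n →
      ∏ k ∈ I, z k ^ m k ∈ Submodule.span ℂ
        {w | ∃ m : ι → ℕ, dg a I m = s ∧ (∀ i ∈ I \ Z, m i < ℓ i) ∧ w = ∏ k ∈ I, z k ^ m k} := by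
    intro n
    induction n using Nat.strong_induction_on with
    | _ n ih =>
      intro m hm hn
      by_cases hred : ∀ i ∈ I \ Z, m i < ℓ i
      · exact Submodule.subset_span ⟨m, hm, hred, rfl⟩
      · push Not at hred
        obtain ⟨i, hi, hlt⟩ := hred
        have hiI : i ∈ I := (Finset.mem_sdiff.1 hi).1
        set m1 : ι → ℕ := fun k => if k = i then m k - ℓ i else m k with hm1
        have h1 : ∏ k ∈ I, z k ^ m k = (∏ k ∈ I, z k ^ m1 k) * z i ^ ℓ i := by
          rw [← Finset.mul_prod_erase _ _ hiI,
            ← Finset.mul_prod_erase I (fun k => z k ^ m1 k) hiI]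
          have h2 : ∏ x ∈ I.erase i, z x ^ m1 x = ∏ x ∈ I.erase i, z x ^ m x := by
            refine Finset.prod_congr rfl fun x hx => ?_
            simp only [hm1, if_neg (Finset.ne_of_mem_erase hx)]
          rw [h2]
          simp only [hm1, if_true]
          have h3 : z i ^ m i = z i ^ (m i - ℓ i) * z i ^ ℓ i := by
            rw [← pow_add, Nat.sub_add_cancel hlt]
          rw [h3]
          ring
        rw [h1]
        have hmem := hz i hi
        have hmap : ∀ w ∈ Submodule.span ℂ
            {w | ∃ m, Rel a ℓ I i m ∧ w = ∏ k ∈ I, z k ^ m k},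
            (∏ k ∈ I, z k ^ m1 k) * w ∈ Submodule.span ℂ
              {w | ∃ m : ι → ℕ, dg a I m = s ∧ (∀ i ∈ I \ Z, m i < ℓ i) ∧
                w = ∏ k ∈ I, z k ^ m k} := by
          intro w hw
          induction hw using Submodule.span_induction with
          | mem x hx =>
            obtain ⟨m', hrel, rfl⟩ := hx
            have h4 : (∏ k ∈ I, z k ^ m1 k) * ∏ k ∈ I, z k ^ m' k =
                ∏ k ∈ I, z k ^ (m1 k + m' k) := by
              rw [← Finset.prod_mul_distrib]
              exact Finset.prod_congr rfl fun k _ => (pow_add _ _ _).symm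
            rw [h4]
            have h5 : dg a I m1 + ℓ i * a i = dg a I m := dg_sub_single a I m hiI hlt
            have h6 : dg W I m1 + ℓ i * W i = dg W I m := dg_sub_single W I m hiI hlt
            have h7 : dg a I (fun k => m1 k + m' k) = s := by
              have h8 : dg a I m' = ℓ i * a i := hrel.1
              rw [dg_add, h8, h5, hm]
            have h9 : dg W I (fun k => m1 k + m' k) = dg W I m1 + dg W I m' := dg_add W I m1 m'
            have h10 := hW i hi m' hrel
            have h11 : dg W I (fun k => m1 k + m' k) ≤ s * ∑ k ∈ I, W k := by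
              rw [Finset.mul_sum]
              refine Finset.sum_le_sum fun k hk => Nat.mul_le_mul_right _ ?_
              calc (fun k => m1 k + m' k) k ≤ (fun k => m1 k + m' k) k * a k :=
                    Nat.le_mul_of_pos_right _ (ha k hk)
                _ ≤ dg a I (fun k => m1 k + m' k) := le_dg a I (fun k => m1 k + m' k) hk
                _ = s := h7
            exact ih _ (by omega) _ h7 rfl
          | zero => rw [mul_zero]; exact Submodule.zero_mem _
          | add x y _ _ hx hy => rw [mul_add]; exact Submodule.add_mem _ hx hy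
          | smul c x _ hx => rw [mul_smul_comm]; exact Submodule.smul_mem _ _ hx
        exact hmap _ hmem
  exact key _ m₀ rfl rfl

end Pool.Agent.K3h40.FG
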