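import Pool.Agent.K3h16.FG.Stm

/-!
# Assembly of the case of three or more indices
-/

set_option autoImplicit false

namespace Pool.Agent.K3h40.FG

open Pool.Agent.R920.WC Pool.Agent.K3h16.FG

theorem t_THMA : S_MIN → S_AXIS → S_CLO → S_ONEBAD → S_VAL → S_RANK → S_THMA := by
  intro hMIN hAXIS hCLO hONE hVAL hRANK ι _ G _ r a q C ha hcop hC hcard hq e he h1
  have hpos : ∀ i ∈ C, 0 < a i := fun i hi => by have := ha i hi; omega
  have hoth : ∀ i ∈ C, ∃ k ∈ C, k ≠ i := by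
    intro i hi
    obtain ⟨m, -, k, hk, hki, -⟩ := hC.1.2 i hi
    exact ⟨k, hk, hki⟩
  obtain ⟨c, hc⟩ := (hMIN a C hpos).1 hoth
  obtain ⟨hCc, hc2, hcq⟩ := hCLO a q c C ha hcop hC hc
  have he' : ∑ i ∈ C, (c i - 1) * (a i - 1) + 1 ≤ e := by
    refine le_trans (Nat.add_le_add_right (Finset.sum_le_sum fun i hi => ?_) 1) he
    exact Nat.mul_le_mul_right _ (Nat.sub_le_sub_right (hcq i hi) 1)
  have hi0 : ∃ i₀ ∈ C, ∀ l ∈ C, l ≠ i₀ → ∃ n : ι → ℕ, dg a C n = e ∧ c l ≤ n l := by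
    by_cases hb : ∃ l ∈ C, ∀ n : ι → ℕ, dg a C n = e → n l < c l
    · obtain ⟨p, hp, hbp⟩ := hb
      refine ⟨p, hp, fun l hl hlp => ?_⟩
      by_contra hcon
      push Not at hcon
      exact hONE a c C ha hcop hc hCc hc2 hcard e he' l hl p hp hlp (fun n hn => hcon n hn) hbp
    · push Not at hb
      obtain ⟨i, hi⟩ := hC.1.1
      exact ⟨i, hi, fun l hl _ => hb l hl⟩
  obtain ⟨i₀, hi₀, hgood⟩ := hi0
  have hax := hAXIS a c C ha hcop hc i₀ hi₀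
  have hbud : ∑ i ∈ C.erase i₀, (c i - 1) * a i < e + a i₀ := by
    have e1 : ∑ i ∈ C.erase i₀, (c i - 1) * a i
        = ∑ i ∈ C.erase i₀, (c i - 1) * (a i - 1) + ∑ i ∈ C.erase i₀, (c i - 1) := by
      rw [← Finset.sum_add_distrib]
      refine Finset.sum_congr rfl fun i hi => ?_
      have h2 : 1 < a i := ha i (Finset.mem_of_mem_erase hi)
      obtain ⟨t, ht⟩ : ∃ t, a i = t + 1 := ⟨a i - 1, by omega⟩
      rw [ht, Nat.add_sub_cancel]
      ring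
    have e2 : (c i₀ - 1) * (a i₀ - 1) + ∑ i ∈ C.erase i₀, (c i - 1) * (a i - 1)
        = ∑ i ∈ C, (c i - 1) * (a i - 1) :=
      Finset.add_sum_erase C (fun i => (c i - 1) * (a i - 1)) hi₀
    have h3 := hpos i₀ hi₀
    rw [e1]
    omega
  obtain ⟨i₁, hi₁, hne⟩ := hoth i₀ hi₀
  exact hRANK r a C hpos i₀ hi₀ i₁ hi₁ (hcop i₁ hi₁ i₀ hi₀ hne) e
    (hVAL r a c C ha hc hCc e h1 i₀ hi₀ hgood hbud)

end Pool.Agent.K3h40.FG
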